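import Pool.Agent.P.MP_9db4f5_nt.Bridge

namespace Pool.Agent.Results.MP_9db4f5_nt.Integrality

/-- The multinomial coefficient (4k)!/(k!)^4. -/
def M (k : ℕ) : ℚ := ((4 * k).factorial : ℚ) / (k.factorial : ℚ) ^ 4

/-- T_n = sum over k < n of (7k+1) M_k 648^(n-1-k). -/
def T (n : ℕ) : ℚ := ∑ k ∈ Finset.range n, (7 * (k : ℚ) + 1) * M k * 648 ^ (n - 1 - k)

/-- s_n = T_n / (2n(2n+1) C(2n,n)). -/
def s (n : ℕ) : ℚ := T n / (2 * (n : ℚ) * (2 * (n : ℚ) + 1) * ((2 * n).choose n : ℚ))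

theorem result (n : ℕ) (hn : 2 ≤ n) :
    ((¬ ∃ a : ℕ, 2 * n + 1 = 3 ^ a) → ∃ m : ℤ, s n = (m : ℚ)) ∧
      ((∃ a : ℕ, 2 * n + 1 = 3 ^ a) → (s n).den = 3) :=
  Pool.Agent.P.MP_9db4f5_nt.q2 n hn (s n) (Pool.Agent.P.MP_9db4f5_nt.s_eq n (by omega))

end Pool.Agent.Results.MP_9db4f5_nt.Integrality
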