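import Pool.Agent.P.MP_9db4f5_nt.Final

namespace Pool.Agent.Results.MP_9db4f5_nt.Supercongruence

/-- The multinomial coefficient (4k)!/(k!)^4. -/
def M (k : ℕ) : ℚ := ((4 * k).factorial : ℚ) / (k.factorial : ℚ) ^ 4

/-- The Euler number E_n: n! times the coefficient of t^n in 2/(e^t + e^(-t)). -/
noncomputable def E (n : ℕ) : ℚ :=
  (n.factorial : ℚ) * PowerSeries.coeff n
    (2 * (PowerSeries.exp ℚ + PowerSeries.rescale (-1) (PowerSeries.exp ℚ))⁻¹)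

theorem result (p : ℕ) (hp : p.Prime) (h3 : 3 < p) :
    ∃ r : ℚ, ¬ p ∣ r.den ∧
      (∑ k ∈ Finset.range p, (7 * (k : ℚ) + 1) * M k / 648 ^ k) -
        ((-1) ^ ((p - 1) / 2) * (p : ℚ) - 5 / 3 * E (p - 3) * (p : ℚ) ^ 3) = (p : ℚ) ^ 4 * r :=
  Pool.Agent.P.MP_9db4f5_nt.q1 p hp h3

end Pool.Agent.Results.MP_9db4f5_nt.Supercongruence
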